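import Mathlib
import Pool.Agent.N778.MZ.Lim

set_option autoImplicit false

/-!
# Hoffman's basis, damped: linear independence for all but finitely many parameters

For a sequence `w = (k_1, …, k_r)`, `r ≥ 1`, of integers `k_i ≥ 2` and `j ≥ 0` let `H_j(w)` be the truncated multiple
zeta value `∑ 1/(m_1^{k_1} … m_r^{k_r})`, the sum over `j ≥ m_1 > … > m_r ≥ 1`, and `ζ(w)` the multiple zeta value.
Let `S_w(x) = exp (-x) * ∑_j x^j/j! * H_j(w)` be the Poisson mean of the truncated values and
`T_w(x) = exp (-x) * ∑_j x^j/j! * (ζ(w) - H_j(w))` the Poisson mean of the tails (the sums over `m_1 > j`). So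
`T_w(0) = ζ(w)`, `S_w(x) + T_w(x) = ζ(w)` and `S_w(x) → ζ(w)` for real `x → ∞`.

For complex numbers `a_1, …, a_n` with `a_n ≠ 0` let `I(a_1, …, a_n)` be the iterated integral of the forms
`ω_{a_1}(t_1), …, ω_{a_n}(t_n)` over `1 > t_1 > … > t_n > 0`, where `ω_0 = dt / t` and `ω_a = (exp (a t) - 1) dt / t` for
`a ≠ 0`. Let `𝓚` be the field which is generated by all algebraic numbers, all numbers `exp b`, `b` algebraic, and
all numbers `I(a_1, …, a_n)` with algebraic `a_1, …, a_n`, no two nonzero ones of which have sum zero.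

Let `X` be a set of algebraic numbers `x` such that `x + y ≠ 0` for all `x, y` in `X` (for example the set of the
positive algebraic numbers).

(1) The numbers `S_w(x)`, for all sequences `w` as above and all `x` in `X`, and `1` are linearly independent over `𝓚`.

(2) Let `W` be a finite set of sequences `w` as above, for example the set `C_{k,k}` of all sequences of `2` and `3`
with sum `k ≥ 1`, or of all those with sum at most `k`. The number of the points `x` in `X` such that the numbers `1`
and `T_w(x)`, `w` in `W`, are linearly dependent over `𝓚` is at most `d - 1`, where `d` is the dimension of the space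
which is spanned by `1` and the `ζ(w)`, `w` in `W`, over `𝓚`.

(3) The number of the points `x` in `X ∪ {0}` such that the numbers `1` and `T_w(x)`, `w` in `W`, are linearly dependent
over `𝓚` is at most the number of the elements of `W`. For `x = 0` these are the numbers `1` and `ζ(w)`: the conjecture says
that they are linearly independent over the rationals if all entries are `2` or `3`.

Proof. The series `∑ H_n(w) x^n t^n / n!`, multiplied with `exp (-x t)`, is a combination of iterated integrals of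
`dt/t`, `(exp (x t) - 1) dt/t`, `(exp (-x t) - 1) dt/t` with a leading word which determines `w`. Commutators of the
derivations which remove the first letter (helper902) kill `𝓚`, and their compositions are dual to these words. The
values at algebraic points of such functions satisfy no new relations (helper902, from the Siegel-Shidlovskii theorem
in the starting files). (2) and (3) are linear algebra.
-/

namespace Pool.Agent.Results.MP_301213_nt.DampedHoffmanBasis

open Filter Topology

/-- the truncated multiple zeta value: `H_j(k_1, …, k_r)` is the sum over `j ≥ m_1 > … > m_r ≥ 1` -/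
noncomputable def H : List ℕ → ℕ → ℂ
  | [], _ => 1
  | k :: w, j => ∑ i ∈ Finset.range j, H w i / ((i : ℂ) + 1) ^ k

/-- the multiple zeta value (here `m_1 = i + 1`) -/
noncomputable def zeta : List ℕ → ℂ
  | [] => 1
  | k :: w => ∑' i : ℕ, H w i / ((i : ℂ) + 1) ^ k

/-- the tail: the sum over `m_1 > j` (here `m_1 = i + j + 1`) -/
noncomputable def tail : List ℕ → ℕ → ℂ
  | [], _ => 0
  | k :: w, j => ∑' i : ℕ, H w (i + j) / ((i : ℂ) + j + 1) ^ k

/-- `S_w(x)` -/
noncomputable def S (w : List ℕ) (x : ℂ) : ℂ := Complex.exp (-x) * ∑' j : ℕ, x ^ j / j.factorial * H w j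

/-- `T_w(x)` -/
noncomputable def T (w : List ℕ) (x : ℂ) : ℂ := Complex.exp (-x) * ∑' j : ℕ, x ^ j / j.factorial * tail w j

/-- nonempty sequences of integers `≥ 2` -/
def Word (w : List ℕ) : Prop := w ≠ [] ∧ ∀ k ∈ w, 2 ≤ k

/-- the iterated integral of `ω_{a_1}(t_1), …, ω_{a_n}(t_n)` over `t > t_1 > … > t_n > 0` -/
noncomputable def iterated : List ℂ → ℝ → ℂ
  | [], _ => 1
  | a :: v, t => ∫ s in (0 : ℝ)..t, (if a = 0 then 1 else Complex.exp (a * s) - 1) * iterated v s / s

/-- `I(a_1, …, a_n)` -/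
noncomputable def I (w : List ℂ) : ℂ := iterated w 1

/-- the entries are algebraic, the last one is not zero, no two nonzero entries have sum zero -/
def Admissible (w : List ℂ) : Prop :=
  (∀ a ∈ w, IsAlgebraic ℚ a) ∧ (∀ h : w ≠ [], w.getLast h ≠ 0) ∧ ∀ a ∈ w, a ≠ 0 → -a ∉ w

/-- the field `𝓚` -/
noncomputable def baseField : IntermediateField ℚ ℂ := IntermediateField.adjoin ℚ
  ({z | IsAlgebraic ℚ z} ∪ {z | ∃ b : ℂ, IsAlgebraic ℚ b ∧ z = Complex.exp b} ∪
    {z | ∃ w : List ℂ, Admissible w ∧ z = I w})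

/-- the condition on the set `X` -/
def Points (X : Set ℂ) : Prop := ∀ x ∈ X, IsAlgebraic ℚ x ∧ ∀ y ∈ X, x + y ≠ 0

/-- `1` and the `T_w(x)`, `w` in `W`, are linearly independent over `𝓚` -/
def IndepAt (W : Finset (List ℕ)) (x : ℂ) : Prop :=
  LinearIndependent baseField (fun o : Option W => (o.elim 1 (fun w => T w x) : ℂ))

/-- the space spanned by `1` and the `ζ(w)`, `w` in `W`, over `𝓚` -/
noncomputable def space (W : Finset (List ℕ)) : Submodule baseField ℂ :=
  Submodule.span baseField (Set.range fun o : Option W => (o.elim 1 (fun w => zeta w) : ℂ))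

open Pool.Agent.N902.EW (II KK)
open Pool.Agent.N778

theorem iterated_eq (w : List ℂ) : ∀ t : ℝ, iterated w t = II w t := by
  induction w with
  | nil => intro t; rfl
  | cons a v ih =>
    intro t
    rw [iterated, II]
    refine intervalIntegral.integral_congr fun s _ => ?_
    show (if a = 0 then 1 else Complex.exp (a * s) - 1) * iterated v s / s = _
    rw [ih]

theorem baseField_eq : baseField = KK := by
  rw [baseField, KK]
  congr 2
  ext z
  constructor
  · rintro ⟨w, hw, rfl⟩
    exact ⟨w, ⟨hw.1, hw.2.1⟩, hw.2.2, iterated_eq w 1⟩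
  · rintro ⟨w, hw, hno, rfl⟩
    exact ⟨w, ⟨hw.1, hw.2, hno⟩, (iterated_eq w 1).symm⟩

theorem li_iff {ι : Type} (z : ι → ℂ) : LinearIndependent baseField z ↔ LinearIndependent KK z := by
  rw [baseField_eq]

theorem H_eq (w : List ℕ) (j : ℕ) : H w j = MZ.H w j := by
  induction w generalizing j with
  | nil => rfl
  | cons k w ih =>
    rw [H, MZ.H]
    exact Finset.sum_congr rfl fun i _ => by rw [ih]

theorem zeta_eq (w : List ℕ) : zeta w = MZ.zt w := by
  rcases w with _ | ⟨k, w⟩
  · rfl
  · rw [zeta, MZ.zt]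
    exact tsum_congr fun i => by rw [H_eq]

theorem tail_eq (w : List ℕ) (j : ℕ) : tail w j = MZ.tl w j := by
  rcases w with _ | ⟨k, w⟩
  · rfl
  · rw [tail, MZ.tl]
    exact tsum_congr fun i => by rw [H_eq]

theorem S_eq (w : List ℕ) (x : ℂ) : S w x = MZ.S w x := by
  rw [S, MZ.S]
  congr 1
  exact tsum_congr fun j => by rw [H_eq]

theorem T_eq (w : List ℕ) (x : ℂ) : T w x = MZ.T w x := by
  rw [T, MZ.T]
  congr 1
  exact tsum_congr fun j => by rw [tail_eq]

theorem word_iff (w : List ℕ) : Word w ↔ MZ.Word w := Iff.rfl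

theorem li_S (X : Set ℂ) (hX : Points X) : LinearIndependent baseField
    (fun o : Option {p : List ℕ × ℂ // Word p.1 ∧ p.2 ∈ X} => (o.elim 1 (fun p => S p.1.1 p.1.2) : ℂ)) := by
  rw [li_iff]
  have h := MZ.li_S X hX
  have e : (fun o : Option {p : List ℕ × ℂ // Word p.1 ∧ p.2 ∈ X} => (o.elim 1 (fun p => S p.1.1 p.1.2) : ℂ)) =
      (fun o : Option {p : List ℕ × ℂ // MZ.Word p.1 ∧ p.2 ∈ X} => (o.elim 1 (fun p => MZ.S p.1.1 p.1.2) : ℂ)) := by
    funext o
    rcases o with _ | p
    · rfl
    · exact S_eq p.1.1 p.1.2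
  rw [e]
  exact h

theorem li_fin {X : Set ℂ} (hX : Points X) {W : Finset (List ℕ)} (hW : ∀ w ∈ W, Word w) {t : Finset ℂ}
    (ht : (t : Set ℂ) ⊆ X) :
    LinearIndependent baseField (fun o : Option (W × t) => (o.elim 1 (fun p => S p.1 p.2) : ℂ)) := by
  have h := li_S X hX
  let g : W × t → {p : List ℕ × ℂ // Word p.1 ∧ p.2 ∈ X} := fun p => ⟨(p.1, p.2), hW _ p.1.2, ht p.2.2⟩
  have hg : Function.Injective g := by
    intro p q hpq
    have e1 : (p.1 : List ℕ) = q.1 := congrArg (fun z : {p : List ℕ × ℂ // Word p.1 ∧ p.2 ∈ X} => z.1.1) hpq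
    have e2 : (p.2 : ℂ) = q.2 := congrArg (fun z : {p : List ℕ × ℂ // Word p.1 ∧ p.2 ∈ X} => z.1.2) hpq
    exact Prod.ext (Subtype.ext e1) (Subtype.ext e2)
  have h2 := h.comp (Option.map g) (Option.map_injective hg)
  have e : (fun o : Option (W × t) => (o.elim 1 (fun p => S p.1 p.2) : ℂ)) =
      (fun o : Option {p : List ℕ × ℂ // Word p.1 ∧ p.2 ∈ X} => (o.elim 1 (fun p => S p.1.1 p.1.2) : ℂ)) ∘
        Option.map g := by
    funext o
    rcases o with _ | p
    · rfl
    · rfl
  rw [e]
  exact h2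

theorem indep_eq {W : Finset (List ℕ)} (hW : ∀ w ∈ W, Word w) (x : ℂ) :
    (fun o : Option W => (o.elim 1 (fun w => T w x) : ℂ)) = fun o : Option W => (o.elim 1 (fun w => zeta w - S w x) : ℂ) := by
  funext o
  rcases o with _ | w
  · rfl
  · show T w x = zeta w - S w x
    rw [T_eq, zeta_eq, S_eq]
    exact MZ.T_eq (hW w w.2) x

theorem indep_zero {W : Finset (List ℕ)} (hW : ∀ w ∈ W, Word w) :
    (fun o : Option W => (o.elim 1 (fun w => T w 0) : ℂ)) = fun o : Option W => (o.elim 1 (fun w => zeta w) : ℂ) := by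
  funext o
  rcases o with _ | w
  · rfl
  · show T w 0 = zeta w
    rw [T_eq, zeta_eq]
    exact MZ.T_zero (hW w w.2)

/-- **Damped Hoffman basis** -/
theorem result (X : Set ℂ) (hX : Points X) :
    (∀ w : List ℕ, Word w → T w 0 = zeta w ∧ (∀ x : ℂ, S w x + T w x = zeta w) ∧
      Tendsto (fun x : ℝ => S w x) atTop (𝓝 (zeta w))) ∧
    LinearIndependent baseField
      (fun o : Option {p : List ℕ × ℂ // Word p.1 ∧ p.2 ∈ X} => (o.elim 1 (fun p => S p.1.1 p.1.2) : ℂ)) ∧
    ∀ W : Finset (List ℕ), (∀ w ∈ W, Word w) →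
      {x : ℂ | x ∈ X ∧ ¬ IndepAt W x}.encard + 1 ≤ Module.finrank baseField (space W) ∧
      {x : ℂ | (x ∈ X ∨ x = 0) ∧ ¬ IndepAt W x}.encard ≤ W.card := by
  classical
  refine ⟨fun w hw => ⟨?_, fun x => ?_, ?_⟩, li_S X hX, fun W hW => ⟨?_, ?_⟩⟩
  · rw [T_eq, zeta_eq]
    exact MZ.T_zero hw
  · rw [T_eq, zeta_eq, S_eq]
    exact MZ.S_add_T hw x
  · rw [zeta_eq]
    have h := MZ.S_tendsto hw
    refine h.congr fun x => ?_
    rw [S_eq]
  · have h0 : 1 ≤ Module.finrank baseField (space W) := by
      have h1 := MZ.lin_count_dim W S zeta ∅ (li_fin hX hW (by simp)) (fun x hx => absurd hx (by simp))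
      exact h1
    have h2 : {x : ℂ | x ∈ X ∧ ¬ IndepAt W x}.encard ≤ (Module.finrank baseField (space W) - 1 : ℕ) := by
      refine Pool.Agent.N902.EW.encard_le_of_fin _ _ fun t ht => ?_
      have h1 := MZ.lin_count_dim W S zeta t (li_fin hX hW fun x hx => (ht hx).1) (fun x hx => by
        have h3 := (ht hx).2
        rw [IndepAt, indep_eq hW] at h3
        exact h3)
      have h4 : t.card + 1 ≤ Module.finrank baseField (space W) := h1
      omega
    calc {x : ℂ | x ∈ X ∧ ¬ IndepAt W x}.encard + 1 ≤ ((Module.finrank baseField (space W) - 1 : ℕ) : ℕ∞) + 1 :=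
          add_le_add_left h2 1
      _ = ((Module.finrank baseField (space W) - 1 + 1 : ℕ) : ℕ∞) := by push_cast; rfl
      _ = _ := by rw [Nat.sub_add_cancel h0]
  · refine Pool.Agent.N902.EW.encard_le_of_fin _ _ fun t ht => ?_
    have h0X : (0 : ℂ) ∉ X := fun h => (hX 0 h).2 0 h (add_zero 0)
    have h1 := MZ.lin_count W S zeta (t.erase 0) (li_fin hX hW fun x hx => by
        have h2 := Finset.mem_erase.1 (Finset.mem_coe.1 hx)
        exact ((ht (Finset.mem_coe.2 h2.2)).1).resolve_right h2.1) (fun x hx => by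
      have h3 := (ht (Finset.mem_coe.2 (Finset.mem_erase.1 hx).2)).2
      rw [IndepAt, indep_eq hW] at h3
      exact h3)
    by_cases h4 : (0 : ℂ) ∈ t
    · have h5 := (ht (Finset.mem_coe.2 h4)).2
      rw [IndepAt, indep_zero hW] at h5
      have h6 := h1.2 h5
      rwa [Finset.card_erase_add_one h4] at h6
    · have h6 := h1.1
      rwa [Finset.erase_eq_of_notMem h4] at h6

end Pool.Agent.Results.MP_301213_nt.DampedHoffmanBasis
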