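import Mathlib
import Pool.Agent.X255.RH.Main
import Pool.Agent.N534.DI.Dbl

/-!
# Multiple zeta functions of the first variable at all roots of almost all integral polynomials

The question is about linear relations between the numbers `ζ(k_1, …, k_n)`. We consider `ζ(x, k_2, …, k_n)` as a function of the first variable,
which for `Re x > 0` is given by an absolutely convergent series if `n ≥ 2` and the word `(k_2, …, k_n)` is admissible: all `k_i ≥ 1`, `k_n ≥ 2`;
for `n = 1` it is the Riemann zeta function `ζ(x)`. Let `W` be a finite set of admissible words `w = (k_2, …, k_n)` (for instance words in `2` and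
`3`), of any lengths, such that different words in `W` have different numbers `k_2 + … + k_n - (n - 1)` (weight minus depth). For instance `W` can
consist of the words of length at most one, `ζ(x), ζ(x, 2), ζ(x, 3), …, ζ(x, k)`, or of the words `(2, …, 2)`, `ζ(x), ζ(x, 2), ζ(x, 2, 2), …`. Let
`B` be a finite set of primes and `K` an integer. We consider the numbers `q^(-x)`, `q ∈ B`, and the derivatives `ζ^(j)(x, w)` with respect to `x`,
`w ∈ W`, `0 ≤ j < K`, at ALL the roots `x` of an integral polynomial of degree `g` with `Re x ≥ 1 / (ω + 1)`, `x ≠ 1`; so `x` runs through algebraic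
numbers of degree `g` with their conjugates in the half-plane (rational numbers for `g = 1`).

We prove: for almost all integral polynomials with coefficients at most `T` these numbers, at all roots `x` together, satisfy no algebraic
relation over number fields whose degree and whose field degree is at most `ω(T)` and whose height is at most `T ^ ω(T)`, where `ω(T) → ∞`; the
coefficients of the relations may contain arbitrary given complex numbers `ξ_0, ξ_1, …`, for instance all multiple zeta values.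

The proof is an application of `Pool.Agent.X255.RH.main_all` (values of algebraically independent functions at the roots of almost all
polynomials). That the functions are algebraically independent over `ℂ(x)` is proved in `Pool.Agent.N534.DI.aindepP'`, with the derivations
`f(n) ↦ v_p(n) f(n)` of the ring of arithmetic functions; here the coefficients of the Dirichlet series are not periodic and not multiplicative, and
one uses that at primes they are of different orders of magnitude.
-/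

set_option autoImplicit false

open Polynomial Filter Topology NumberField

namespace Pool.Agent.Results.MP_301213_nt.FirstVariableAtAllRoots

/-- For the word `w = (k_2, …, k_n)` this is `∑_{m < m_2 < … < m_n} 1 / (m_2^(k_2) ⋯ m_n^(k_n))`; it is `1` for the empty word. -/
noncomputable def tail : List ℕ → ℕ → ℝ
  | [], _ => 1
  | b :: w, m => ∑' j : ℕ, tail w (m + 1 + j) / ((m + 1 + j : ℕ) : ℝ) ^ b

/-- The function `ζ(x, k_2, …, k_n) = ∑_{0 < m < m_2 < … < m_n} 1 / (m^x m_2^(k_2) ⋯ m_n^(k_n))`; it is Riemann's `ζ(x)` for the empty word. -/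
noncomputable def mzf : List ℕ → ℂ → ℂ
  | [], x => riemannZeta x
  | b :: w, x => LSeries (fun m => (tail (b :: w) m : ℂ)) x

/-- all the `k_i` are positive, and the last one is at least `2` -/
def Admissible : List ℕ → Prop
  | [] => True
  | [b] => 2 ≤ b
  | b :: c :: w => 1 ≤ b ∧ Admissible (c :: w)

/-- weight minus depth: the sum of the `k_i - 1` -/
def ord : List ℕ → ℕ
  | [] => 0
  | b :: w => (b - 1) + ord w

/-- The integral vectors `a = (a_0, …, a_g)` with `|a_i| ≤ T`. -/
noncomputable def box (g T : ℕ) : Finset (Fin (g + 1) → ℤ) := Fintype.piFinset fun _ => Finset.Icc (-(T : ℤ)) (T : ℤ)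

/-- The polynomial `a_0 + a_1 x + … + a_g x^g`. -/
noncomputable def poly {g : ℕ} (a : Fin (g + 1) → ℤ) : ℂ[X] := ∑ i, C (a i : ℂ) * X ^ (i : ℕ)

/-- The points `z ≠ 1` with `Re z ≥ 1 / (k + 1)`. -/
def dom (k : ℕ) : Set ℂ := {z | 1 / ((k : ℝ) + 1) ≤ z.re ∧ z ≠ 1}

/-- The roots in `dom k` of the polynomial with the coefficients `a`. -/
noncomputable def roots {g : ℕ} (k : ℕ) (a : Fin (g + 1) → ℤ) : Finset ℂ := by
  classical exact (poly a).roots.toFinset.filter fun z => z ∈ dom k

/-- The names of the functions: `q ∈ B` stands for `q^(-x)`, and `(w, j)` stands for `ζ^(j)(x, w)`. -/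
abbrev Index (B : Finset ℕ) (W : Finset (List ℕ)) (K : ℕ) : Type := {q // q ∈ B} ⊕ ({w // w ∈ W} × Fin K)

/-- The values. -/
noncomputable def values {B : Finset ℕ} {W : Finset (List ℕ)} {K : ℕ} : Index B W K → ℂ → ℂ
  | Sum.inl q, x => ((q : ℕ) : ℂ) ^ (-x)
  | Sum.inr j, x => iteratedDeriv j.2 (mzf j.1) x

/-- The numbers `x q` satisfy no relation of degree at most `k` in each of them with coefficients `∑_{b < k} ξ_b c_b`, where the `c_b` are
integers of a number field of degree at most `k` all of whose conjugates are at most `T ^ k`, except the relations all of whose coefficients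
vanish. -/
def NoRelation {Q : Type} [Fintype Q] [DecidableEq Q] (ξ : ℕ → ℂ) (k : ℕ) (T : ℝ) (x : Q → ℂ) : Prop :=
  ∀ (F : Type) [Field F] [NumberField F], Module.finrank ℚ F ≤ k → ∀ (io : F →+* ℂ)
    (c : (Q → Fin (k + 1)) → Fin k → 𝓞 F), (∀ l b (φ : F →+* ℂ), ‖φ (c l b : F)‖ ≤ T ^ k) →
    ∑ l, (∑ b : Fin k, ξ b * io (c l b : F)) * ∏ q, x q ^ (l q : ℕ) = 0 → ∀ l, ∑ b : Fin k, ξ b * io (c l b : F) = 0

/-- The polynomial with the coefficients `a` has degree `g` and simple roots, and there is no relation between the numbers `q^(-x)` and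
`ζ^(j)(x, w)` at all its roots in `dom k` together. -/
def Good {g : ℕ} (B : Finset ℕ) (W : Finset (List ℕ)) (K : ℕ) (ξ : ℕ → ℂ) (k : ℕ) (T : ℝ) (a : Fin (g + 1) → ℤ) : Prop :=
  a (Fin.last g) ≠ 0 ∧ (poly a).Separable ∧
    NoRelation ξ k T fun q : {x // x ∈ roots k a} × Index B W K => values q.2 q.1

section proofs

variable {B : Finset ℕ} {W : Finset (List ℕ)} {K : ℕ}

theorem ord_pos (b : ℕ) (w : List ℕ) (h : Admissible (b :: w)) : 1 ≤ ord (b :: w) := by
  induction w generalizing b with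
  | nil =>
    have h1 : 2 ≤ b := h
    change 1 ≤ b - 1 + 0
    omega
  | cons c w ih =>
    have h1 := ih c h.2
    change 1 ≤ b - 1 + ord (c :: w)
    omega

theorem adm_cons (b : ℕ) (w : List ℕ) (h : Admissible (b :: w)) : Admissible w ∧ 1 ≤ b ∧ 2 ≤ b + ord w := by
  rcases w with _ | ⟨c, w⟩
  · have h1 : 2 ≤ b := h
    exact ⟨trivial, by omega, by change 2 ≤ b + 0; omega⟩
  · have h1 : 1 ≤ b := h.1
    have h2 := ord_pos c w h.2
    exact ⟨h.2, h1, by omega⟩

theorem partial_le (s m : ℕ) (hs : 2 ≤ s) (hm : 1 ≤ m) (n : ℕ) :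
    ∑ j ∈ Finset.range n, 1 / ((m + 1 + j : ℕ) : ℝ) ^ s + 1 / (((m + n : ℕ) : ℝ) * (m : ℝ) ^ (s - 2)) ≤ 1 / (m : ℝ) ^ (s - 1) := by
  have hm0 : (0 : ℝ) < m := by exact_mod_cast hm
  induction n with
  | zero =>
    rw [Finset.sum_range_zero, zero_add, Nat.add_zero, ← pow_succ']
    rw [show s - 2 + 1 = s - 1 by omega]
  | succ n ih =>
    refine le_trans ?_ ih
    rw [Finset.sum_range_succ, add_assoc]
    refine add_le_add le_rfl ?_
    have hx : (0 : ℝ) < ((m + n : ℕ) : ℝ) := by positivity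
    have hy : ((m + 1 + n : ℕ) : ℝ) = ((m + n : ℕ) : ℝ) + 1 := by push_cast; ring
    have hy' : ((m + (n + 1) : ℕ) : ℝ) = ((m + n : ℕ) : ℝ) + 1 := by push_cast; ring
    rw [hy, hy']
    set x : ℝ := ((m + n : ℕ) : ℝ) with hxd
    have hmx : (m : ℝ) ≤ x + 1 := by
      rw [hxd]; push_cast
      have : (0 : ℝ) ≤ n := Nat.cast_nonneg n
      linarith
    have hp : (m : ℝ) ^ (s - 2) ≤ (x + 1) ^ (s - 2) := pow_le_pow_left₀ hm0.le hmx _
    have hq : (x + 1) ^ s = (x + 1) ^ (s - 2) * (x + 1) ^ 2 := by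
      rw [← pow_add]
      congr 1
      omega
    have hA : 0 < (m : ℝ) ^ (s - 2) := pow_pos hm0 _
    have h1 : 1 / (x + 1) ^ s ≤ 1 / ((m : ℝ) ^ (s - 2) * (x * (x + 1))) := by
      rw [hq]
      refine one_div_le_one_div_of_le (by positivity) ?_
      refine mul_le_mul hp ?_ (by positivity) (by positivity)
      nlinarith
    have h2 : 1 / ((m : ℝ) ^ (s - 2) * (x * (x + 1))) + 1 / ((x + 1) * (m : ℝ) ^ (s - 2)) = 1 / (x * (m : ℝ) ^ (s - 2)) := by
      field_simp
      ring
    linarith

theorem sum_tail (s m : ℕ) (hs : 2 ≤ s) (hm : 1 ≤ m) (t : ℕ → ℝ) (ht0 : ∀ n, 1 ≤ n → 0 ≤ t n)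
    (ht : ∀ j, t (m + 1 + j) ≤ 1 / ((m + 1 + j : ℕ) : ℝ) ^ s) :
    Summable (fun j => t (m + 1 + j)) ∧ ∑' j, t (m + 1 + j) ≤ 1 / (m : ℝ) ^ (s - 1) := by
  have h1 : ∀ n, ∑ j ∈ Finset.range n, t (m + 1 + j) ≤ 1 / (m : ℝ) ^ (s - 1) := by
    intro n
    refine le_trans (Finset.sum_le_sum fun j _ => ht j) ?_
    have h2 := partial_le s m hs hm n
    have h3 : (0 : ℝ) ≤ 1 / (((m + n : ℕ) : ℝ) * (m : ℝ) ^ (s - 2)) := by positivity
    linarith
  have h0 : ∀ j, 0 ≤ t (m + 1 + j) := fun j => ht0 _ (by omega)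
  exact ⟨summable_of_sum_range_le h0 h1, Real.tsum_le_of_sum_range_le h0 h1⟩

/-- the order of magnitude of the coefficients -/
theorem tail_bounds (w : List ℕ) (hw : Admissible w) :
    ∃ c : ℝ, 0 < c ∧ ∀ m : ℕ, 1 ≤ m → c * (1 / (m : ℝ) ^ ord w) ≤ tail w m ∧ tail w m ≤ 1 / (m : ℝ) ^ ord w := by
  induction w with
  | nil => exact ⟨1, one_pos, fun m hm => by simp [tail, ord]⟩
  | cons b w ih =>
    obtain ⟨hw1, hb1, hb2⟩ := adm_cons b w hw
    obtain ⟨c, hc, h⟩ := ih hw1
    refine ⟨c * (1 / 2 ^ (b + ord w)), by positivity, fun m hm => ?_⟩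
    have hm0 : (0 : ℝ) < m := by exact_mod_cast hm
    have e1 : ord (b :: w) = b + ord w - 1 := by
      change b - 1 + ord w = _
      omega
    have hpos : ∀ n : ℕ, 1 ≤ n → 0 ≤ tail w n := fun n hn => le_trans (by positivity) (h n hn).1
    have hle : ∀ j : ℕ, tail w (m + 1 + j) / ((m + 1 + j : ℕ) : ℝ) ^ b ≤ 1 / ((m + 1 + j : ℕ) : ℝ) ^ (b + ord w) := by
      intro j
      have h1 := (h (m + 1 + j) (by omega)).2
      rw [add_comm b, pow_add, ← div_div]
      gcongr
    obtain ⟨hs1, hs2⟩ := sum_tail (b + ord w) m (by omega) hm (fun n => tail w n / (n : ℝ) ^ b)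
      (fun n hn => div_nonneg (hpos n hn) (by positivity)) hle
    rw [e1]
    refine ⟨?_, hs2⟩
    have h2 : ∑ j ∈ Finset.range m, tail w (m + 1 + j) / ((m + 1 + j : ℕ) : ℝ) ^ b ≤ tail (b :: w) m :=
      hs1.sum_le_tsum _ fun j _ => div_nonneg (hpos _ (by omega)) (by positivity)
    refine le_trans ?_ h2
    have h3 : ∀ j ∈ Finset.range m, c * (1 / (2 * (m : ℝ)) ^ (b + ord w)) ≤ tail w (m + 1 + j) / ((m + 1 + j : ℕ) : ℝ) ^ b := by
      intro j hj
      rw [Finset.mem_range] at hj
      have h4 := (h (m + 1 + j) (by omega)).1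
      have h5 : ((m + 1 + j : ℕ) : ℝ) ≤ 2 * m := by
        have : m + 1 + j ≤ 2 * m := by omega
        exact_mod_cast this
      have h6 : (0 : ℝ) < ((m + 1 + j : ℕ) : ℝ) := by positivity
      calc c * (1 / (2 * (m : ℝ)) ^ (b + ord w)) ≤ c * (1 / ((m + 1 + j : ℕ) : ℝ) ^ (b + ord w)) := by gcongr
        _ = c * (1 / ((m + 1 + j : ℕ) : ℝ) ^ ord w) / ((m + 1 + j : ℕ) : ℝ) ^ b := by
          rw [add_comm b, pow_add]
          field_simp
        _ ≤ _ := by gcongr
    have h7 := Finset.card_nsmul_le_sum _ _ _ h3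
    rw [Finset.card_range, nsmul_eq_mul] at h7
    refine le_trans (le_of_eq ?_) h7
    have e2 : (m : ℝ) ^ (b + ord w) = m * (m : ℝ) ^ (b + ord w - 1) := by
      rw [← pow_succ']
      congr 1
      omega
    rw [mul_pow, e2]
    field_simp

theorem exp_log (e m : ℕ) (hm : 1 ≤ m) : Real.exp (-(e : ℝ) * Real.log m) = 1 / (m : ℝ) ^ e := by
  have hm0 : (0 : ℝ) < m := by exact_mod_cast hm
  rw [neg_mul, Real.exp_neg, one_div, ← Real.log_pow, Real.exp_log (pow_pos hm0 _)]

/-- the coefficients -/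
noncomputable def co (W : Finset (List ℕ)) (w : {w // w ∈ W}) (m : ℕ) : ℂ := (tail w m : ℂ)

theorem sep (hW : ∀ w ∈ W, Admissible w) (hinj : ∀ w ∈ W, ∀ v ∈ W, ord w = ord v → w = v) :
    Pool.Agent.N534.DI.SepP (co W) {0} K := by
  choose c hc h using fun w : {w // w ∈ W} => tail_bounds w (hW w w.2)
  refine Pool.Agent.N534.DI.sepP_lead (co W) (fun w => (ord w : ℝ)) (fun w v hwv => ?_) c (fun _ => 1) hc (fun w m hm => ?_) fun w m hm => ?_
  · exact Subtype.ext (hinj w w.2 v v.2 (Nat.cast_injective (R := ℝ) hwv))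
  · have h1 := (h w m hm).1
    rw [exp_log _ _ hm, co, Complex.norm_real, Real.norm_eq_abs]
    exact h1.trans (le_abs_self _)
  · have h1 := (h w m hm).1
    have h2 := (h w m hm).2
    have h3 : 0 ≤ tail w m := le_trans (mul_nonneg (hc w).le (by positivity)) h1
    rw [exp_log _ _ hm, co, Complex.norm_real, Real.norm_eq_abs, abs_of_nonneg h3, one_mul]
    exact h2

theorem absc_cons (b : ℕ) (w : List ℕ) (hw : Admissible (b :: w)) :
    LSeries.abscissaOfAbsConv (fun m => (tail (b :: w) m : ℂ)) ≤ 0 := by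
  obtain ⟨c, hc, h⟩ := tail_bounds (b :: w) hw
  have h1 : (fun m => (tail (b :: w) m : ℂ)) =O[atTop] fun m : ℕ => (m : ℝ) ^ (-1 : ℝ) := by
    refine Asymptotics.IsBigO.of_bound 1 ?_
    filter_upwards [eventually_ge_atTop 1] with m hm
    have hm1 : (1 : ℝ) ≤ m := by exact_mod_cast hm
    have h2 := (h m hm).1
    have h3 := (h m hm).2
    have h4 : 0 ≤ tail (b :: w) m := le_trans (mul_nonneg hc.le (by positivity)) h2
    have h5 : 1 ≤ ord (b :: w) := ord_pos b w hw
    rw [Complex.norm_real, Real.norm_eq_abs, abs_of_nonneg h4, one_mul, Real.norm_eq_abs, Real.rpow_neg_one,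
      abs_of_nonneg (by positivity)]
    refine h3.trans ?_
    rw [one_div]
    exact inv_anti₀ (by positivity) (le_self_pow₀ hm1 (by omega))
  have h2 := LSeries.abscissaOfAbsConv_le_of_isBigO_rpow h1
  refine h2.trans (le_of_eq ?_)
  rw [← EReal.coe_one, ← EReal.coe_add]
  norm_num

/-- the half-plane without the point `1` -/
def V : Set ℂ := {z | 0 < z.re ∧ z ≠ 1}

theorem V_open : IsOpen V := (isOpen_lt continuous_const Complex.continuous_re).inter isOpen_ne

theorem V_pre : IsPreconnected V := by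
  have c1 : IsPreconnected {z : ℂ | 0 < z.re ∧ z.re < 1} := ((convex_halfSpace_re_gt 0).inter (convex_halfSpace_re_lt 1)).isPreconnected
  have c2 : IsPreconnected {z : ℂ | 0 < z.re ∧ 1 < z.re} := ((convex_halfSpace_re_gt 0).inter (convex_halfSpace_re_gt 1)).isPreconnected
  have c3 : IsPreconnected {z : ℂ | 0 < z.re ∧ 0 < z.im} := ((convex_halfSpace_re_gt 0).inter (convex_halfSpace_im_gt 0)).isPreconnected
  have c4 : IsPreconnected {z : ℂ | 0 < z.re ∧ z.im < 0} := ((convex_halfSpace_re_gt 0).inter (convex_halfSpace_im_lt 0)).isPreconnected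
  have u1 := c1.union (⟨1 / 2, 1⟩ : ℂ) (by norm_num) (by norm_num) c3
  have u2 := u1.union (⟨2, 1⟩ : ℂ) (by right; norm_num) (by norm_num) c2
  have u3 := u2.union (⟨1 / 2, -1⟩ : ℂ) (by left; left; norm_num) (by norm_num) c4
  convert u3 using 1
  ext z
  simp only [V, Set.mem_ofPred_eq, Set.mem_union]
  constructor
  · rintro ⟨h1, h2⟩
    rcases lt_trichotomy z.re 1 with h | h | h
    · exact Or.inl (Or.inl (Or.inl ⟨h1, h⟩))
    · rcases lt_trichotomy z.im 0 with h' | h' | h'
      · exact Or.inr ⟨h1, h'⟩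
      · exact absurd (Complex.ext h h') h2
      · exact Or.inl (Or.inl (Or.inr ⟨h1, h'⟩))
    · exact Or.inl (Or.inr ⟨h1, h⟩)
  · rintro (((⟨h1, h2⟩ | ⟨h1, h2⟩) | ⟨h1, h2⟩) | ⟨h1, h2⟩)
    all_goals
      refine ⟨h1, ?_⟩
      rintro rfl
      simp at h2

theorem tame (k : ℕ) : Pool.Agent.X255.RH.Tame (dom k) V := by
  refine ⟨{1}, 1 / ((k : ℝ) + 1), by positivity, fun R => (Set.finite_singleton _).inter_of_left _, ?_⟩
  rintro z ⟨hz1, hz2⟩ w hw
  by_cases h : w = 1
  · exact Or.inl ⟨1, rfl, by rw [h]⟩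
  · right
    right
    have h1 : w.re ≤ 0 := by
      by_contra h'
      exact hw ⟨not_le.1 h', h⟩
    have h2 := Complex.abs_re_le_norm (z - w)
    rw [Complex.sub_re] at h2
    have h3 := le_abs_self (z.re - w.re)
    linarith

theorem mzf_an (w : List ℕ) (hw : Admissible w) : AnalyticOnNhd ℂ (mzf w) V := by
  rcases w with _ | ⟨b, w⟩
  · have h1 : DifferentiableOn ℂ (mzf []) V := fun z hz => (differentiableAt_riemannZeta hz.2).differentiableWithinAt
    exact h1.analyticOnNhd V_open
  · refine (LSeries_analyticOnNhd _).mono fun z hz => ?_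
    exact lt_of_le_of_lt (absc_cons b w hw) (by exact_mod_cast hz.1)

theorem an (hB : ∀ q ∈ B, q.Prime) (hW : ∀ w ∈ W, Admissible w) (j : Index B W K) : AnalyticOnNhd ℂ (values j) V := by
  rcases j with ⟨q, hq⟩ | j
  · intro z _
    have hq0 : ((q : ℕ) : ℂ) ∈ Complex.slitPlane := by
      rw [Complex.natCast_mem_slitPlane]
      exact (hB q hq).ne_zero
    exact AnalyticAt.cpow (g := fun x : ℂ => -x) analyticAt_const analyticAt_id.neg hq0
  · change AnalyticOnNhd ℂ (iteratedDeriv j.2 (mzf j.1)) V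
    rw [iteratedDeriv_eq_iterate]
    exact (mzf_an j.1 (hW j.1 j.1.2)).iterated_deriv j.2

/-- the embedding of the names -/
noncomputable def emb (B : Finset ℕ) (W : Finset (List ℕ)) (K : ℕ) :
    Option (Index B W K) → Option ({q // q ∈ B} ⊕ Pool.Agent.N534.DI.JP {w // w ∈ W} 1 {0} K)
  | none => none
  | some (Sum.inl q) => some (Sum.inl q)
  | some (Sum.inr j) => some (Sum.inr (j.1, ((0 : Fin 1), (⟨0, Finset.mem_singleton_self 0⟩, j.2))))

theorem emb_inj (B : Finset ℕ) (W : Finset (List ℕ)) (K : ℕ) : Function.Injective (emb B W K) := by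
  rintro (_ | _ | ⟨_, _⟩) (_ | _ | ⟨_, _⟩) h
  all_goals simp_all [emb]

theorem absc (w : List ℕ) (hw : Admissible w) : LSeries.abscissaOfAbsConv (fun m => (tail w m : ℂ)) ≤ (1 : ℝ) := by
  rcases w with _ | ⟨b, w⟩
  · have h1 : (fun m : ℕ => (tail [] m : ℂ)) = 1 := by
      funext m
      simp [tail]
    rw [h1]
    exact le_of_eq LSeries.abscissaOfAbsConv_one
  · exact (absc_cons b w hw).trans (by exact_mod_cast zero_le_one)

theorem mzf_eq (w : List ℕ) (s : ℂ) (hs : 1 < s.re) : mzf w s = LSeries (fun m => (tail w m : ℂ)) s := by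
  rcases w with _ | ⟨b, w⟩
  · have h1 : (fun m : ℕ => (tail [] m : ℂ)) = 1 := by
      funext m
      simp [tail]
    rw [h1]
    exact (LSeries_one_eq_riemannZeta hs).symm
  · rfl

theorem ind (hB : ∀ q ∈ B, q.Prime) (hW : ∀ w ∈ W, Admissible w) (hinj : ∀ w ∈ W, ∀ v ∈ W, ord w = ord v → w = v) :
    Pool.Agent.X255.RH.Indep V (values (B := B) (W := W) (K := K)) := by
  refine Pool.Agent.X255.RH.indep_of_aindepS fun P hP => ?_
  refine MvPolynomial.rename_injective _ (emb_inj B W K) ?_
  rw [map_zero]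
  refine Pool.Agent.N534.DI.aindepP' 1 B hB (co W) (sep hW hinj) (fun w => mzf w)
    (fun w => absc w (hW w w.2)) (fun w s hs => mzf_eq w s (by exact_mod_cast hs)) 1 _ fun x hx => ?_
  rw [MvPolynomial.eval_rename]
  have hx' : (x : ℂ) ∈ V := by
    refine ⟨by rw [Complex.ofReal_re]; linarith, fun h => ?_⟩
    have h1 := congrArg Complex.re h
    rw [Complex.ofReal_re, Complex.one_re] at h1
    linarith
  refine Eq.trans ?_ (hP (x : ℂ) hx')
  congr 1
  congr 1
  funext o
  rcases o with _ | _ | j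
  · rfl
  · rfl
  · change iteratedDeriv j.2 (mzf j.1) ((((0 + 1 : ℕ) : ℂ)) * x + ((0 : ℝ) : ℂ)) = iteratedDeriv j.2 (mzf j.1) x
    rw [zero_add, Nat.cast_one, one_mul, Complex.ofReal_zero, add_zero]

end proofs

open scoped Classical in
/-- **All roots of almost all polynomials.** Let `B` be a finite set of primes and `W` a finite set of admissible words `w = (k_2, …, k_n)` such
that different words in `W` have different numbers weight minus depth. For all `K`, every degree `g ≥ 1` and all complex numbers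
`ξ_0, ξ_1, …` there is a function `ω(T) → ∞` such that among the `(2 T + 1)^(g + 1)` integral polynomials with coefficients at most `T` at most the
proportion `1 / ω(T)` is not good. -/
theorem result (B : Finset ℕ) (hB : ∀ q ∈ B, q.Prime) (W : Finset (List ℕ)) (hW : ∀ w ∈ W, Admissible w)
    (hord : ∀ w ∈ W, ∀ v ∈ W, ord w = ord v → w = v) (K : ℕ) (g : ℕ) (hg : 0 < g) (ξ : ℕ → ℂ) :
    ∃ ω : ℕ → ℕ, Tendsto ω atTop atTop ∧ Monotone ω ∧ ∀ T : ℕ,
      ω T * ((box g T).filter fun a => ¬ Good B W K ξ (ω T) T a).card ≤ (box g T).card :=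
  Pool.Agent.X255.RH.main_all hg V_pre V_open dom tame (an hB hW) (ind hB hW hord) ξ

end Pool.Agent.Results.MP_301213_nt.FirstVariableAtAllRoots
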